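import Mathlib

namespace Pool.Agent.Results.MP_64d5df_nt.Q2False

/-- distance from `x` to the nearest integer -/
noncomputable def nrm (x : ℝ) : ℝ := |x - round x|

/-- loneliness gap `κ(V) = sup_t min_{v ∈ V} ‖t v‖` -/
noncomputable def kappa (V : Finset ℕ) : ℝ := ⨆ t : ℝ, ⨅ v : V, nrm (t * (v : ℕ))

lemma nrm_nonneg (x : ℝ) : 0 ≤ nrm x := abs_nonneg _

lemma inf_le (V : Finset ℕ) (t : ℝ) (v : ℕ) (hv : v ∈ V) :
    (⨅ v : V, nrm (t * (v : ℕ))) ≤ nrm (t * v) :=
  ciInf_le (f := fun v : V => nrm (t * (v : ℕ))) (Set.finite_range _).bddBelow ⟨v, hv⟩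

lemma kappa_le (V : Finset ℕ) (c : ℝ) (h : ∀ t : ℝ, ∃ v ∈ V, nrm (t * v) ≤ c) : kappa V ≤ c := by
  apply ciSup_le
  intro t
  obtain ⟨v, hv, hc⟩ := h t
  exact (inf_le V t v hv).trans hc

lemma le_kappa (V : Finset ℕ) (hV : V.Nonempty) (c t : ℝ) (h : ∀ v ∈ V, c ≤ nrm (t * v)) :
    c ≤ kappa V := by
  obtain ⟨w, hw⟩ := hV
  have : Nonempty V := ⟨⟨w, hw⟩⟩
  refine le_trans (le_ciInf fun v : V => h v v.2)
    (le_ciSup (f := fun t : ℝ => ⨅ v : V, nrm (t * (v : ℕ))) ⟨1 / 2, ?_⟩ t)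
  rintro _ ⟨s, rfl⟩
  exact (inf_le V s w hw).trans (abs_sub_round _)

lemma third (t : ℝ) : nrm (t * (3 : ℕ)) ≤ 1 / 3 ∨ nrm (t * (6 : ℕ)) ≤ 1 / 3 := by
  by_contra h
  push Not at h
  obtain ⟨h1, h2⟩ := h
  unfold nrm at h1 h2
  have h3 := abs_le.mp (abs_sub_round (t * (3 : ℕ)))
  have h4 := round_le (t * (6 : ℕ)) (2 * round (t * (3 : ℕ)) + 1)
  have h5 := round_le (t * (6 : ℕ)) (2 * round (t * (3 : ℕ)) - 1)
  push_cast at *
  rcases lt_abs.mp h1 with h | h
  · have : |t * 6 - (2 * (round (t * 3) : ℝ) + 1)| ≤ 1 / 3 := by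
      rw [abs_le]; constructor <;> linarith
    linarith
  · have : |t * 6 - (2 * (round (t * 3) : ℝ) - 1)| ≤ 1 / 3 := by
      rw [abs_le]; constructor <;> linarith
    linarith

lemma sevenths (t : ℝ) : nrm (t * (2 : ℕ)) ≤ 3 / 7 ∨ nrm (t * (5 : ℕ)) ≤ 3 / 7 := by
  by_contra h
  push Not at h
  obtain ⟨h1, h2⟩ := h
  unfold nrm at h1 h2
  have h3 := abs_le.mp (abs_sub_round (t * (2 : ℕ)))
  have h4 := abs_le.mp (abs_sub_round (t * (5 : ℕ)))
  push_cast at *
  set k : ℤ := 2 * round (t * 5) - 5 * round (t * 2) with hk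
  have hk' : (k : ℝ) = 2 * round (t * 5) - 5 * round (t * 2) := by rw [hk]; push_cast; ring
  rcases lt_abs.mp h1 with a | a <;> rcases lt_abs.mp h2 with b | b
  · have e1 : (1 : ℝ) < k := by linarith
    have e2 : (k : ℝ) < 2 := by linarith
    have e1' : 1 < k := by exact_mod_cast e1
    have e2' : k < 2 := by exact_mod_cast e2
    omega
  · have e1 : (3 : ℝ) < k := by linarith
    have e2 : (k : ℝ) < 4 := by linarith
    have e1' : 3 < k := by exact_mod_cast e1
    have e2' : k < 4 := by exact_mod_cast e2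
    omega
  · have e1 : (-4 : ℝ) < k := by linarith
    have e2 : (k : ℝ) < -3 := by linarith
    have e1' : -4 < k := by exact_mod_cast e1
    have e2' : k < -3 := by exact_mod_cast e2
    omega
  · have e1 : (-2 : ℝ) < k := by linarith
    have e2 : (k : ℝ) < -1 := by linarith
    have e1' : -2 < k := by exact_mod_cast e1
    have e2' : k < -1 := by exact_mod_cast e2
    omega

lemma lower (m : ℤ) (x : ℝ) (hx : x = m + 3 / 7 ∨ x = m + 4 / 7) : 3 / 7 ≤ nrm x := by
  unfold nrm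
  rcases le_or_gt (round x) m with h | h
  · have : ((round x : ℤ) : ℝ) ≤ m := by exact_mod_cast h
    rw [le_abs]; left; rcases hx with h | h <;> linarith
  · have : (m : ℝ) + 1 ≤ (round x : ℤ) := by exact_mod_cast h
    rw [le_abs]; right; rcases hx with h | h <;> linarith

/-- For every `n ≥ 2` there are an `n`-set `V` of positive integers and a positive integer `a`
with `κ(a + V) < κ(V)`; moreover `V` is primitive, `κ(V) < 1/2`, and `a + V` is primitive
when `n ≥ 3`. -/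
theorem result : ∀ n : ℕ, 2 ≤ n → ∃ (V : Finset ℕ) (a : ℕ), V.card = n ∧ (∀ v ∈ V, 0 < v) ∧
    0 < a ∧ kappa (V.image (a + ·)) < kappa V ∧
    kappa V < 1 / 2 ∧ V.gcd id = 1 ∧ (3 ≤ n → (V.image (a + ·)).gcd id = 1) := by
  intro n hn
  let W : Finset ℕ := (Finset.range (n - 1)).image (fun j => 7 * j + 2)
  have h5 : 5 ∉ W := by
    simp only [W, Finset.mem_image, not_exists, not_and]
    intro j _; omega
  have hW : W.card = n - 1 := by
    rw [Finset.card_image_of_injective _ (fun a b h => by have h2 : 7 * a + 2 = 7 * b + 2 := h; omega),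
      Finset.card_range]
  have m2 : 2 ∈ insert 5 W :=
    Finset.mem_insert_of_mem (Finset.mem_image.mpr ⟨0, Finset.mem_range.mpr (by omega), rfl⟩)
  have m5 : 5 ∈ insert 5 W := Finset.mem_insert_self _ _
  have m3 : 3 ∈ (insert 5 W).image (1 + ·) := Finset.mem_image.mpr ⟨2, m2, rfl⟩
  have m6 : 6 ∈ (insert 5 W).image (1 + ·) := Finset.mem_image.mpr ⟨5, m5, rfl⟩
  have up : kappa ((insert 5 W).image (1 + ·)) ≤ 1 / 3 := kappa_le _ _ fun t => by
    rcases third t with h | h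
    · exact ⟨3, m3, h⟩
    · exact ⟨6, m6, h⟩
  have up2 : kappa (insert 5 W) ≤ 3 / 7 := kappa_le _ _ fun t => by
    rcases sevenths t with h | h
    · exact ⟨2, m2, h⟩
    · exact ⟨5, m5, h⟩
  have lo : 3 / 7 ≤ kappa (insert 5 W) := le_kappa _ ⟨5, m5⟩ _ (2 / 7) fun v hv => by
    rcases Finset.mem_insert.mp hv with rfl | hv
    · exact lower 1 _ (Or.inl (by push_cast; ring))
    · obtain ⟨j, _, rfl⟩ := Finset.mem_image.mp hv
      exact lower (2 * j) _ (Or.inr (by push_cast; ring))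
  refine ⟨insert 5 W, 1, by rw [Finset.card_insert_of_notMem h5, hW]; omega, ?_, one_pos,
    by linarith, by linarith, ?_, fun h3 => ?_⟩
  · intro v hv
    rcases Finset.mem_insert.mp hv with rfl | hv
    · omega
    · obtain ⟨j, _, rfl⟩ := Finset.mem_image.mp hv
      omega
  · have a := Finset.gcd_dvd (f := id) m2
    have b := Finset.gcd_dvd (f := id) m5
    exact Nat.eq_one_of_dvd_coprimes (by norm_num : Nat.Coprime 2 5) a b
  · have m9 : 9 ∈ insert 5 W :=
      Finset.mem_insert_of_mem (Finset.mem_image.mpr ⟨1, Finset.mem_range.mpr (by omega), rfl⟩)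
    have m10 : 10 ∈ (insert 5 W).image (1 + ·) := Finset.mem_image.mpr ⟨9, m9, rfl⟩
    have a := Finset.gcd_dvd (f := id) m3
    have b := Finset.gcd_dvd (f := id) m10
    exact Nat.eq_one_of_dvd_coprimes (by norm_num : Nat.Coprime 3 10) a b

end Pool.Agent.Results.MP_64d5df_nt.Q2False
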